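import Mathlib

/-!
# The colorful Fingerhut problem in Hilbert space

For every red-blue max-sum matching `r_i b_i` of finitely many red and blue points of a real inner
product space there is a point `o` with `|r_i - o| + |b_i - o| ≤ √2 |r_i - b_i|` for all `i`.

Proof. By a minimax argument it is enough to find, for each system of weights `l_i ≥ 0`, a point
`o` with `∑ l_i (|r_i - o| + |b_i - o|) ≤ √2 ∑ l_i |r_i - b_i|`. Let `g` be a coupling of the red
points and of the blue points (both with the weights `l_i`) for which `∑ g_ij ⟨r_i, b_j⟩` is least.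
The balls with the diameters `r_i b_j`, where `g_ij > 0`, have a common point `o` (again a minimax
argument), so that `|r_i - o| + |b_j - o| ≤ √2 |r_i - b_j|` for these pairs. Finally
`∑ g_ij |r_i - b_j| ≤ ∑ l_i |r_i - b_i|` by Birkhoff's theorem, since the matching is max-sum.
-/

set_option autoImplicit false

namespace Pool.Agent.Results.MP_be7f3b_co.FingerhutHilbert

open scoped RealInnerProductSpace

variable {E : Type*} [NormedAddCommGroup E] [InnerProductSpace ℝ E]

/-- A minimax principle for finitely many convex functions on a compact convex set. -/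
theorem minimax {ι : Type*} [Fintype ι] [DecidableEq ι] {K : Set E} (hK : IsCompact K)
    (hKc : Convex ℝ K) (hne : K.Nonempty) (h : ι → E → ℝ) (hcont : ∀ i, ContinuousOn (h i) K)
    (hconv : ∀ i, ConvexOn ℝ K (h i))
    (H : ∀ w : ι → ℝ, (∀ i, 0 ≤ w i) → ∑ i, w i = 1 → ∃ o ∈ K, ∑ i, w i * h i o ≤ 0) :
    ∃ o ∈ K, ∀ i, h i o ≤ 0 := by
  classical
  rcases isEmpty_or_nonempty ι with hι | hι
  · obtain ⟨o, ho⟩ := hne
    exact ⟨o, ho, fun i => (hι.false i).elim⟩
  by_contra hno
  push Not at hno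
  -- a positive lower bound of the maximum of the functions
  have hs : ∃ e : ℝ, 0 < e ∧ ∀ o ∈ K, ∃ i, e ≤ h i o := by
    set g : E → ℝ := fun o => Finset.univ.sup' Finset.univ_nonempty fun i => h i o with hg
    have hgc : ContinuousOn g K := by
      have := ContinuousOn.finset_sup'_apply (Finset.univ_nonempty (α := ι)) (f := h) (t := K)
        (fun i _ => hcont i)
      exact this
    obtain ⟨o0, ho0, hmin⟩ := hK.exists_isMinOn hne hgc
    obtain ⟨i0, hi0⟩ := hno o0 ho0
    have hpos : 0 < g o0 := lt_of_lt_of_le hi0 (Finset.le_sup' (fun i => h i o0) (Finset.mem_univ i0))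
    refine ⟨g o0, hpos, fun o ho => ?_⟩
    obtain ⟨i, -, hi⟩ := Finset.exists_mem_eq_sup' (Finset.univ_nonempty (α := ι)) (fun i => h i o)
    exact ⟨i, hi ▸ hmin ho⟩
  obtain ⟨e, he, hlow⟩ := hs
  set C : Set (ι → ℝ) := {x | ∃ o ∈ K, ∀ i, h i o < x i} with hC
  have hCo : IsOpen C := by
    have : C = ⋃ o ∈ K, {x : ι → ℝ | ∀ i, h i o < x i} := by
      ext x
      simp [hC]
    rw [this]
    refine isOpen_biUnion fun o _ => ?_
    have h2 : {x : ι → ℝ | ∀ i, h i o < x i} = ⋂ i, {x : ι → ℝ | h i o < x i} := by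
      ext x
      simp
    rw [h2]
    exact isOpen_iInter_of_finite fun i => isOpen_lt continuous_const (continuous_apply i)
  have hCc : Convex ℝ C := by
    rintro x ⟨o, ho, hx⟩ y ⟨o', ho', hy⟩ a b ha hb hab
    refine ⟨a • o + b • o', hKc ho ho' ha hb hab, fun i => ?_⟩
    have h1 := (hconv i).2 ho ho' ha hb hab
    simp only [smul_eq_mul] at h1
    simp only [Pi.add_apply, Pi.smul_apply, smul_eq_mul]
    rcases lt_or_eq_of_le ha with ha' | ha'
    · nlinarith [hx i, hy i, mul_lt_mul_of_pos_left (hx i) ha',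
        mul_le_mul_of_nonneg_left (hy i).le hb]
    · have hb1 : b = 1 := by linarith
      subst hb1
      rw [← ha'] at h1 ⊢
      linarith [hy i]
  have hp : (fun _ : ι => e) ∉ C := by
    rintro ⟨o, ho, hlt⟩
    obtain ⟨i, hi⟩ := hlow o ho
    exact absurd (hlt i) (not_lt.2 hi)
  obtain ⟨f, hf⟩ := geometric_hahn_banach_open_point hCc hCo hp
  -- the coefficients of the functional
  set w : ι → ℝ := fun i => - f (Pi.single i 1) with hw
  have hfw : ∀ x : ι → ℝ, f x = - ∑ i, w i * x i := by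
    intro x
    have h1 : x = ∑ i, x i • (Pi.single i (1 : ℝ) : ι → ℝ) := by
      ext j
      simp [Finset.sum_apply, Pi.single_apply]
    conv_lhs => rw [h1]
    rw [map_sum, ← Finset.sum_neg_distrib]
    refine Finset.sum_congr rfl fun i _ => ?_
    rw [map_smul, smul_eq_mul, hw]
    ring
  obtain ⟨o0, ho0⟩ := hne
  have ha0 : ∀ t : ℝ, 0 < t → (fun i => h i o0 + t) ∈ C :=
    fun t ht => ⟨o0, ho0, fun i => by linarith⟩
  have hw0 : ∀ i, 0 ≤ w i := by
    intro i
    by_contra hneg
    push Not at hneg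
    have hmem : ∀ t : ℝ, 0 ≤ t → (fun j => h j o0 + 1 + t * (Pi.single i (1 : ℝ) : ι → ℝ) j) ∈ C := by
      intro t ht
      refine ⟨o0, ho0, fun j => ?_⟩
      have : 0 ≤ t * (Pi.single i (1 : ℝ) : ι → ℝ) j := by
        apply mul_nonneg ht
        by_cases hj : j = i
        · subst hj; simp
        · simp [hj]
      linarith
    have hval : ∀ t : ℝ, f (fun j => h j o0 + 1 + t * (Pi.single i (1 : ℝ) : ι → ℝ) j) =
        f (fun j => h j o0 + 1) - t * w i := by
      intro t
      rw [hfw, hfw]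
      have : ∑ j, w j * (h j o0 + 1 + t * (Pi.single i (1 : ℝ) : ι → ℝ) j) =
          ∑ j, w j * (h j o0 + 1) + t * w i := by
        have h3 : ∀ j, w j * (h j o0 + 1 + t * (Pi.single i (1 : ℝ) : ι → ℝ) j) =
            w j * (h j o0 + 1) + t * (w j * (Pi.single i (1 : ℝ) : ι → ℝ) j) := fun j => by ring
        rw [Finset.sum_congr rfl fun j _ => h3 j, Finset.sum_add_distrib, ← Finset.mul_sum]
        congr 2
        simp [Pi.single_apply]
      rw [this]
      ring
    set c := f (fun _ : ι => e) with hc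
    set d := f (fun j => h j o0 + 1) with hd
    have ht := hf _ (hmem (max 0 ((c - d) / (- w i))) (le_max_left _ _))
    rw [hval] at ht
    have h4 : (c - d) / (- w i) ≤ max 0 ((c - d) / (- w i)) := le_max_right _ _
    rw [div_le_iff₀ (by linarith)] at h4
    nlinarith
  have hW : 0 < ∑ i, w i := by
    rcases (Finset.sum_nonneg fun i _ => hw0 i : 0 ≤ ∑ i, w i).lt_or_eq with h1 | h1
    · exact h1
    · exfalso
      have h2 := (Finset.sum_eq_zero_iff_of_nonneg fun i _ => hw0 i).1 h1.symm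
      have h3 := hf _ (ha0 1 one_pos)
      rw [hfw, hfw, Finset.sum_eq_zero (fun i hi => by rw [h2 i hi, zero_mul]),
        Finset.sum_eq_zero (fun i hi => by rw [h2 i hi, zero_mul])] at h3
      exact lt_irrefl _ h3
  set W := ∑ i, w i with hWdef
  obtain ⟨o, ho, hle⟩ := H (fun i => w i / W) (fun i => div_nonneg (hw0 i) hW.le)
    (by rw [← Finset.sum_div, ← hWdef, div_self hW.ne'])
  have hle2 : ∑ i, w i * h i o ≤ 0 := by
    have h5 : ∑ i, w i / W * h i o = (∑ i, w i * h i o) / W := by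
      rw [Finset.sum_div]
      exact Finset.sum_congr rfl fun i _ => by ring
    rw [h5] at hle
    by_contra hcon
    push Not at hcon
    exact absurd hle (not_le.2 (div_pos hcon hW))
  have hmem : (fun i => h i o + e / 2) ∈ C := ⟨o, ho, fun i => by linarith⟩
  have hfin := hf _ hmem
  rw [hfw, hfw] at hfin
  have h6 : ∑ i, w i * (h i o + e / 2) = ∑ i, w i * h i o + W * (e / 2) := by
    rw [hWdef, Finset.sum_mul, ← Finset.sum_add_distrib]
    exact Finset.sum_congr rfl fun i _ => by ring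
  have h7 : ∑ i, w i * e = W * e := by rw [hWdef, Finset.sum_mul]
  rw [h6, h7] at hfin
  nlinarith

/-- The function `o ↦ ⟨r - o, b - o⟩` is convex. -/
theorem convexOn_q (K : Set E) (hKc : Convex ℝ K) (r b : E) :
    ConvexOn ℝ K fun o => ⟪r - o, b - o⟫ := by
  refine ⟨hKc, fun x _ y _ a c ha hc hac => ?_⟩
  have h1 : r - (a • x + c • y) = a • (r - x) + c • (r - y) := by
    rw [smul_sub, smul_sub]
    have : a • r + c • r = r := by rw [← add_smul, hac, one_smul]
    rw [← sub_eq_zero]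
    have h2 : r - (a • x + c • y) - (a • r - a • x + (c • r - c • y)) = r - (a • r + c • r) := by
      abel
    rw [h2, this, sub_self]
  have h2 : b - (a • x + c • y) = a • (b - x) + c • (b - y) := by
    rw [smul_sub, smul_sub]
    have : a • b + c • b = b := by rw [← add_smul, hac, one_smul]
    rw [← sub_eq_zero]
    have h2 : b - (a • x + c • y) - (a • b - a • x + (c • b - c • y)) = b - (a • b + c • b) := by
      abel
    rw [h2, this, sub_self]
  show ⟪r - (a • x + c • y), b - (a • x + c • y)⟫ ≤ a • ⟪r - x, b - x⟫ + c • ⟪r - y, b - y⟫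
  rw [h1, h2, smul_eq_mul, smul_eq_mul]
  rw [inner_add_left, inner_add_right, inner_add_right, real_inner_smul_left,
    real_inner_smul_left, real_inner_smul_left, real_inner_smul_left, real_inner_smul_right,
    real_inner_smul_right, real_inner_smul_right, real_inner_smul_right]
  have h3 : ⟪r - x, b - x⟫ + ⟪r - y, b - y⟫ - ⟪r - x, b - y⟫ - ⟪r - y, b - x⟫ =
      ⟪y - x, y - x⟫ := by
    have e1 : y - x = (r - x) - (r - y) := by abel
    have e2 : y - x = (b - x) - (b - y) := by abel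
    calc ⟪r - x, b - x⟫ + ⟪r - y, b - y⟫ - ⟪r - x, b - y⟫ - ⟪r - y, b - x⟫
        = ⟪(r - x) - (r - y), (b - x) - (b - y)⟫ := by
          rw [inner_sub_left (r - x) (r - y), inner_sub_right (r - x) (b - x) (b - y),
            inner_sub_right (r - y) (b - x) (b - y)]
          ring
      _ = ⟪y - x, y - x⟫ := by rw [← e1, ← e2]
  have h4 : 0 ≤ ⟪y - x, y - x⟫ := real_inner_self_nonneg
  have h5 := mul_nonneg (mul_nonneg ha hc) h4
  rw [← h3] at h5
  have hc' : c = 1 - a := by linarith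
  rw [hc'] at h5 ⊢
  generalize ⟪r - x, b - x⟫ = A at h5 ⊢
  generalize ⟪r - y, b - y⟫ = B at h5 ⊢
  generalize ⟪r - x, b - y⟫ = C at h5 ⊢
  generalize ⟪r - y, b - x⟫ = D at h5 ⊢
  nlinarith [h5]

/-- The function `o ↦ |r - o| + |b - o| - c` is convex. -/
theorem convexOn_h (K : Set E) (hKc : Convex ℝ K) (r b : E) (c : ℝ) :
    ConvexOn ℝ K fun o => ‖r - o‖ + ‖b - o‖ - c := by
  have key : ∀ z x y : E, ∀ a d : ℝ, 0 ≤ a → 0 ≤ d → a + d = 1 →
      ‖z - (a • x + d • y)‖ ≤ a * ‖z - x‖ + d * ‖z - y‖ := by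
    intro z x y a d ha hd had
    have h1 : z - (a • x + d • y) = a • (z - x) + d • (z - y) := by
      rw [smul_sub, smul_sub]
      have : a • z + d • z = z := by rw [← add_smul, had, one_smul]
      rw [← sub_eq_zero]
      have h2 : z - (a • x + d • y) - (a • z - a • x + (d • z - d • y)) = z - (a • z + d • z) := by
        abel
      rw [h2, this, sub_self]
    rw [h1]
    refine (norm_add_le _ _).trans ?_
    rw [norm_smul, norm_smul, Real.norm_of_nonneg ha, Real.norm_of_nonneg hd]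
  refine ⟨hKc, fun x _ y _ a d ha hd had => ?_⟩
  have h1 := key r x y a d ha hd had
  have h2 := key b x y a d ha hd had
  simp only [smul_eq_mul]
  have h3 : c = a * c + d * c := by rw [← add_mul, had, one_mul]
  nlinarith

/-- A coupling of two copies of the weights `l` for which `∑ g p * c p` is least. -/
theorem exists_coupling {n : ℕ} (l : Fin n → ℝ) (hl : ∀ i, 0 ≤ l i) (hl1 : ∑ i, l i = 1)
    (c : Fin n × Fin n → ℝ) :
    ∃ g : Fin n × Fin n → ℝ, ((∀ p, 0 ≤ g p) ∧ (∀ i, ∑ j, g (i, j) = l i) ∧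
      (∀ j, ∑ i, g (i, j) = l j)) ∧
      ∀ g' : Fin n × Fin n → ℝ, (∀ p, 0 ≤ g' p) → (∀ i, ∑ j, g' (i, j) = l i) →
        (∀ j, ∑ i, g' (i, j) = l j) → ∑ p, g p * c p ≤ ∑ p, g' p * c p := by
  set K : Set (Fin n × Fin n → ℝ) := {g | (∀ p, 0 ≤ g p) ∧ (∀ i, ∑ j, g (i, j) = l i) ∧
      (∀ j, ∑ i, g (i, j) = l j)} with hK
  have hclosed : IsClosed K := by
    have h1 : K = (⋂ p, {g | 0 ≤ g p}) ∩ ((⋂ i, {g | ∑ j, g (i, j) = l i}) ∩
        (⋂ j, {g | ∑ i, g (i, j) = l j})) := by
      ext g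
      simp only [hK, Set.mem_inter_iff, Set.mem_iInter]
      exact Iff.rfl
    rw [h1]
    refine IsClosed.inter (isClosed_iInter fun p => isClosed_le continuous_const
      (continuous_apply p)) (IsClosed.inter (isClosed_iInter fun i => isClosed_eq ?_
      continuous_const) (isClosed_iInter fun j => isClosed_eq ?_ continuous_const))
    · exact continuous_finsetSum _ fun j _ => continuous_apply _
    · exact continuous_finsetSum _ fun i _ => continuous_apply _
  have hcomp : IsCompact K := by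
    have h1 : K ⊆ Set.Icc (fun _ => 0) (fun _ => 1) := by
      rintro g ⟨h0, h1, h2⟩
      refine ⟨fun p => h0 p, fun p => ?_⟩
      show g p ≤ 1
      obtain ⟨i, j⟩ := p
      calc g (i, j) ≤ ∑ j, g (i, j) :=
            Finset.single_le_sum (f := fun j => g (i, j)) (fun j _ => h0 (i, j)) (Finset.mem_univ j)
        _ = l i := h1 i
        _ ≤ ∑ i, l i := Finset.single_le_sum (fun i _ => hl i) (Finset.mem_univ i)
        _ = 1 := hl1
    exact isCompact_Icc.of_isClosed_subset hclosed h1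
  have hne : K.Nonempty := by
    refine ⟨fun p => l p.1 * l p.2, fun p => mul_nonneg (hl _) (hl _), fun i => ?_, fun j => ?_⟩
    · show ∑ j, l i * l j = l i
      rw [← Finset.mul_sum, hl1, mul_one]
    · show ∑ i, l i * l j = l j
      rw [← Finset.sum_mul, hl1, one_mul]
  have hcont : ContinuousOn (fun g : Fin n × Fin n → ℝ => ∑ p, g p * c p) K :=
    (continuous_finsetSum _ fun p _ => (continuous_apply p).mul continuous_const).continuousOn
  obtain ⟨g, hg, hmin⟩ := hcomp.exists_isMinOn hne hcont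
  exact ⟨g, hg, fun g' h0 h1 h2 => hmin (show g' ∈ K from ⟨h0, h1, h2⟩)⟩

/-- Comparison of an optimal coupling with the product of the marginals of a part of it. -/
theorem part_le {n : ℕ} (l : Fin n → ℝ) (c g : Fin n × Fin n → ℝ)
    (hg0 : ∀ p, 0 ≤ g p) (hg1 : ∀ i, ∑ j, g (i, j) = l i) (hg2 : ∀ j, ∑ i, g (i, j) = l j)
    (hmin : ∀ g' : Fin n × Fin n → ℝ, (∀ p, 0 ≤ g' p) → (∀ i, ∑ j, g' (i, j) = l i) →
        (∀ j, ∑ i, g' (i, j) = l j) → ∑ p, g p * c p ≤ ∑ p, g' p * c p)
    (v : Fin n × Fin n → ℝ) (hv0 : ∀ p, 0 ≤ v p) (hv1 : ∀ p, v p ≤ 1)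
    (hv : ∀ p, 0 < v p → 0 < g p) (m : ℝ) (hm : 0 < m) (hvm : ∑ p, v p = m) :
    m * ∑ p, v p * c p ≤ ∑ i, ∑ j, (∑ j', v (i, j')) * (∑ i', v (i', j)) * c (i, j) := by
  -- a small number
  obtain ⟨e, he, hle⟩ : ∃ e : ℝ, 0 < e ∧ ∀ p, e * v p ≤ g p := by
    have hne : (Finset.univ.filter fun p => 0 < g p).Nonempty := by
      have : ∃ p, 0 < v p := by
        by_contra hno
        push Not at hno
        have h1 : ∑ p, v p = 0 := Finset.sum_eq_zero fun p _ => le_antisymm (hno p) (hv0 p)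
        linarith
      obtain ⟨p, hp⟩ := this
      exact ⟨p, Finset.mem_filter.2 ⟨Finset.mem_univ _, hv p hp⟩⟩
    obtain ⟨p0, hp0, hmin0⟩ := Finset.exists_min_image _ g hne
    refine ⟨g p0, (Finset.mem_filter.1 hp0).2, fun p => ?_⟩
    rcases (hv0 p).lt_or_eq with h1 | h1
    · have h2 := hmin0 p (Finset.mem_filter.2 ⟨Finset.mem_univ _, hv p h1⟩)
      calc g p0 * v p ≤ g p0 * 1 := mul_le_mul_of_nonneg_left (hv1 p) (hg0 p0)
        _ = g p0 := mul_one _
        _ ≤ g p := h2
    · rw [← h1, mul_zero]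
      exact hg0 p
  set ρ : Fin n → ℝ := fun i => ∑ j, v (i, j) with hρ
  set κ : Fin n → ℝ := fun j => ∑ i, v (i, j) with hκ
  have hρ0 : ∀ i, 0 ≤ ρ i := fun i => Finset.sum_nonneg fun j _ => hv0 _
  have hκ0 : ∀ j, 0 ≤ κ j := fun j => Finset.sum_nonneg fun i _ => hv0 _
  have hρm : ∑ i, ρ i = m := by rw [← hvm, Fintype.sum_prod_type]
  have hκm : ∑ j, κ j = m := by rw [← hvm, Fintype.sum_prod_type_right]
  have h := hmin (fun p => g p - e * v p + e / m * (ρ p.1 * κ p.2)) ?_ ?_ ?_
  · have h1 : ∑ p, (g p - e * v p + e / m * (ρ p.1 * κ p.2)) * c p =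
        ∑ p, g p * c p - e * ∑ p, v p * c p + e / m * ∑ p : Fin n × Fin n, ρ p.1 * κ p.2 * c p := by
      rw [Finset.mul_sum, Finset.mul_sum, ← Finset.sum_sub_distrib, ← Finset.sum_add_distrib]
      exact Finset.sum_congr rfl fun p _ => by ring
    rw [h1, Fintype.sum_prod_type (f := fun p : Fin n × Fin n => ρ p.1 * κ p.2 * c p)] at h
    set A := ∑ p, v p * c p
    set B := ∑ i, ∑ j, ρ i * κ j * c (i, j)
    have h2 : e * A ≤ e / m * B := by linarith
    have h3 : e / m * B = e * (B / m) := by ring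
    rw [h3] at h2
    have h4 : A ≤ B / m := le_of_mul_le_mul_left h2 he
    rw [le_div_iff₀ hm] at h4
    linarith
  · intro p
    have h1 := hle p
    have h2 : 0 ≤ e / m * (ρ p.1 * κ p.2) :=
      mul_nonneg (div_pos he hm).le (mul_nonneg (hρ0 _) (hκ0 _))
    show 0 ≤ g p - e * v p + e / m * (ρ p.1 * κ p.2)
    linarith
  · intro i
    show ∑ j, (g (i, j) - e * v (i, j) + e / m * (ρ i * κ j)) = l i
    rw [Finset.sum_add_distrib, Finset.sum_sub_distrib, hg1, ← Finset.mul_sum, ← Finset.mul_sum,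
      ← Finset.mul_sum, hκm]
    have : e / m * (ρ i * m) = e * ρ i := by field_simp
    rw [this]
    show l i - e * ρ i + e * ρ i = l i
    ring
  · intro j
    show ∑ i, (g (i, j) - e * v (i, j) + e / m * (ρ i * κ j)) = l j
    rw [Finset.sum_add_distrib, Finset.sum_sub_distrib, hg2, ← Finset.mul_sum, ← Finset.mul_sum,
      ← Finset.sum_mul, hρm]
    have : e / m * (m * κ j) = e * κ j := by field_simp
    rw [this]
    show l j - e * κ j + e * κ j = l j
    ring

/-- The balls with the diameters `r_i b_j`, where `(i, j)` is in the support of an optimal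
coupling, have a common point. -/
theorem ball {n : ℕ} (r b : Fin n → E) {K : Set E} (hK : IsCompact K) (hKc : Convex ℝ K)
    (hne : K.Nonempty) (hr : ∀ i, r i ∈ K) (hb : ∀ i, b i ∈ K) (l : Fin n → ℝ)
    (g : Fin n × Fin n → ℝ) (hg0 : ∀ p, 0 ≤ g p) (hg1 : ∀ i, ∑ j, g (i, j) = l i)
    (hg2 : ∀ j, ∑ i, g (i, j) = l j)
    (hmin : ∀ g' : Fin n × Fin n → ℝ, (∀ p, 0 ≤ g' p) → (∀ i, ∑ j, g' (i, j) = l i) →
        (∀ j, ∑ i, g' (i, j) = l j) →
        ∑ p, g p * ⟪r p.1, b p.2⟫ ≤ ∑ p, g' p * ⟪r p.1, b p.2⟫) :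
    ∃ o ∈ K, ∀ p, 0 < g p → ⟪r p.1 - o, b p.2 - o⟫ ≤ 0 := by
  classical
  have key := minimax hK hKc hne
    (fun (p : Fin n × Fin n) o => if 0 < g p then ⟪r p.1 - o, b p.2 - o⟫ else 0) ?_ ?_ ?_
  · obtain ⟨o, ho, h⟩ := key
    refine ⟨o, ho, fun p hp => ?_⟩
    have := h p
    simp only [if_pos hp] at this
    exact this
  · intro p
    by_cases hp : 0 < g p
    · simp only [if_pos hp]
      exact ((continuous_const.sub continuous_id).inner
        (continuous_const.sub continuous_id)).continuousOn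
    · simp only [if_neg hp]
      exact continuousOn_const
  · intro p
    by_cases hp : 0 < g p
    · simp only [if_pos hp]
      exact convexOn_q K hKc _ _
    · simp only [if_neg hp]
      exact convexOn_const _ hKc
  · intro w hw0 hw1
    set v : Fin n × Fin n → ℝ := fun p => if 0 < g p then w p else 0 with hv
    have hv0 : ∀ p, 0 ≤ v p := by
      intro p
      rw [hv]
      dsimp only
      split_ifs
      · exact hw0 p
      · exact le_rfl
    have hvw : ∀ p, v p ≤ w p := by
      intro p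
      rw [hv]
      dsimp only
      split_ifs
      · exact le_rfl
      · exact hw0 p
    have hv1 : ∀ p, v p ≤ 1 := fun p => (hvw p).trans
      (hw1 ▸ Finset.single_le_sum (fun p _ => hw0 p) (Finset.mem_univ p))
    have hterm : ∀ p o, (w p * if 0 < g p then ⟪r p.1 - o, b p.2 - o⟫ else 0) =
        v p * ⟪r p.1 - o, b p.2 - o⟫ := by
      intro p o
      rw [hv]
      dsimp only
      split_ifs
      · rfl
      · rw [mul_zero, zero_mul]
    set m := ∑ p, v p with hm
    rcases (Finset.sum_nonneg fun p _ => hv0 p : 0 ≤ m).lt_or_eq with hmpos | hm0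
    · have h1 := part_le l (fun p => ⟪r p.1, b p.2⟫) g hg0 hg1 hg2 hmin v hv0 hv1
        (fun p hp => by
          by_contra hcon
          rw [hv] at hp
          simp only [if_neg hcon] at hp
          exact lt_irrefl _ hp) m hmpos rfl
      set R : E := ∑ p, v p • r p.1 with hR
      set B : E := ∑ p, v p • b p.2 with hB
      have hRB : ⟪R, B⟫ = ∑ i, ∑ j, (∑ j', v (i, j')) * (∑ i', v (i', j)) * ⟪r i, b j⟫ := by
        have e1 : R = ∑ i, (∑ j', v (i, j')) • r i := by
          rw [hR, Fintype.sum_prod_type]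
          exact Finset.sum_congr rfl fun i _ => by rw [Finset.sum_smul]
        have e2 : B = ∑ j, (∑ i', v (i', j)) • b j := by
          rw [hB, Fintype.sum_prod_type_right]
          exact Finset.sum_congr rfl fun i _ => by rw [Finset.sum_smul]
        rw [e1, e2, sum_inner]
        refine Finset.sum_congr rfl fun i _ => ?_
        rw [inner_sum]
        refine Finset.sum_congr rfl fun j _ => ?_
        rw [real_inner_smul_left, real_inner_smul_right]
        ring
      rw [← hRB] at h1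
      set o : E := (1 / (2 * m)) • (R + B) with ho
      have hoK : o ∈ K := by
        have e1 : o = ∑ p, (v p / m) • ((1 / 2 : ℝ) • r p.1 + (1 / 2 : ℝ) • b p.2) := by
          rw [ho, hR, hB, ← Finset.sum_add_distrib, Finset.smul_sum]
          refine Finset.sum_congr rfl fun p _ => ?_
          rw [← smul_add, ← smul_add, smul_smul, smul_smul]
          congr 1
          field_simp
        rw [e1]
        refine hKc.sum_mem (fun p _ => div_nonneg (hv0 p) hmpos.le) ?_ ?_
        · rw [← Finset.sum_div, ← hm, div_self hmpos.ne']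
        · intro p _
          exact hKc (hr _) (hb _) (by norm_num) (by norm_num) (by norm_num)
      refine ⟨o, hoK, ?_⟩
      rw [Finset.sum_congr rfl fun p _ => hterm p o]
      have h2 : ∑ p, v p * ⟪r p.1 - o, b p.2 - o⟫ =
          ∑ p, v p * ⟪r p.1, b p.2⟫ - ⟪R, o⟫ - ⟪o, B⟫ + m * ⟪o, o⟫ := by
        have e1 : ∀ p : Fin n × Fin n, v p * ⟪r p.1 - o, b p.2 - o⟫ =
            v p * ⟪r p.1, b p.2⟫ - ⟪v p • r p.1, o⟫ - ⟪o, v p • b p.2⟫ + v p * ⟪o, o⟫ := by
          intro p
          rw [inner_sub_left, inner_sub_right, inner_sub_right,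
            real_inner_smul_left (r p.1) o (v p), real_inner_smul_right o (b p.2) (v p)]
          ring
        rw [Finset.sum_congr rfl fun p _ => e1 p, Finset.sum_add_distrib, Finset.sum_sub_distrib,
          Finset.sum_sub_distrib, ← sum_inner, ← inner_sum, ← Finset.sum_mul]
      rw [h2]
      have e1 : ⟪R, o⟫ = 1 / (2 * m) * (⟪R, R⟫ + ⟪R, B⟫) := by
        rw [ho, real_inner_smul_right, inner_add_right]
      have e2 : ⟪o, B⟫ = 1 / (2 * m) * (⟪R, B⟫ + ⟪B, B⟫) := by
        rw [ho, real_inner_smul_left, inner_add_left]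
      have e3 : m * ⟪o, o⟫ = 1 / (4 * m) * (⟪R, R⟫ + 2 * ⟪R, B⟫ + ⟪B, B⟫) := by
        rw [ho, real_inner_smul_left, real_inner_smul_right, inner_add_left, inner_add_right,
          inner_add_right, real_inner_comm R B]
        field_simp
        ring
      have e4 : 0 ≤ ⟪R, R⟫ - 2 * ⟪R, B⟫ + ⟪B, B⟫ := by
        have : ⟪R - B, R - B⟫ = ⟪R, R⟫ - 2 * ⟪R, B⟫ + ⟪B, B⟫ := real_inner_sub_sub_self R B
        rw [← this]
        exact real_inner_self_nonneg
      rw [e1, e2, e3]
      have h3 : ∑ p, v p * ⟪r p.1, b p.2⟫ ≤ ⟪R, B⟫ / m := by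
        rw [le_div_iff₀ hmpos]
        linarith
      have h4 : ⟪R, B⟫ / m - 1 / (2 * m) * (⟪R, R⟫ + ⟪R, B⟫) - 1 / (2 * m) * (⟪R, B⟫ + ⟪B, B⟫) +
          1 / (4 * m) * (⟪R, R⟫ + 2 * ⟪R, B⟫ + ⟪B, B⟫) =
          - (1 / (4 * m) * (⟪R, R⟫ - 2 * ⟪R, B⟫ + ⟪B, B⟫)) := by
        field_simp
        ring
      have h5 : 0 ≤ 1 / (4 * m) * (⟪R, R⟫ - 2 * ⟪R, B⟫ + ⟪B, B⟫) :=
        mul_nonneg (by positivity) e4
      linarith
    · obtain ⟨o, ho⟩ := hne
      refine ⟨o, ho, ?_⟩
      rw [Finset.sum_congr rfl fun p _ => hterm p o]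
      have h1 := (Finset.sum_eq_zero_iff_of_nonneg fun p _ => hv0 p).1 hm0.symm
      rw [Finset.sum_eq_zero fun p hp => by rw [h1 p hp, zero_mul]]

/-- A coupling of the weights `l` with themselves does not do better than the identity, if the
identity is the best permutation. -/
theorem coupling_le {n : ℕ} (d : Fin n → Fin n → ℝ)
    (hd : ∀ σ : Equiv.Perm (Fin n), ∑ i, d i (σ i) ≤ ∑ i, d i i)
    (l : Fin n → ℝ) (hl : ∀ i, 0 ≤ l i) (hl1 : ∑ i, l i = 1)
    (g : Fin n × Fin n → ℝ) (hg0 : ∀ p, 0 ≤ g p) (hg1 : ∀ i, ∑ j, g (i, j) = l i)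
    (hg2 : ∀ j, ∑ i, g (i, j) = l j) :
    ∑ p : Fin n × Fin n, g p * d p.1 p.2 ≤ ∑ i, l i * d i i := by
  classical
  have hl2 : ∀ i, l i ≤ 1 := fun i => hl1 ▸ Finset.single_le_sum (fun i _ => hl i) (Finset.mem_univ i)
  set M : Matrix (Fin n) (Fin n) ℝ := fun i j => g (i, j) + if i = j then 1 - l i else 0 with hM
  have hMd : M ∈ doublyStochastic ℝ (Fin n) := by
    rw [mem_doublyStochastic_iff_sum]
    refine ⟨fun i j => ?_, fun i => ?_, fun j => ?_⟩
    · show 0 ≤ g (i, j) + if i = j then 1 - l i else 0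
      have := hg0 (i, j)
      split_ifs
      · linarith [hl2 i]
      · linarith
    · show ∑ j, (g (i, j) + if i = j then 1 - l i else 0) = 1
      rw [Finset.sum_add_distrib, hg1, Finset.sum_ite_eq Finset.univ i, if_pos (Finset.mem_univ _)]
      ring
    · show ∑ i, (g (i, j) + if i = j then 1 - l i else 0) = 1
      rw [Finset.sum_add_distrib, hg2, Finset.sum_ite_eq' Finset.univ j, if_pos (Finset.mem_univ _)]
      ring
  obtain ⟨w, hw0, hw1, hw⟩ := exists_eq_sum_perm_of_mem_doublyStochastic hMd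
  have h1 : ∑ i, ∑ j, M i j * d i j = ∑ σ, w σ * ∑ i, d i (σ i) := by
    rw [← hw]
    have e1 : ∀ i j, (∑ σ, w σ • σ.permMatrix ℝ) i j =
        ∑ σ, w σ * (if σ i = j then 1 else 0) := by
      intro i j
      rw [Matrix.sum_apply]
      refine Finset.sum_congr rfl fun σ _ => ?_
      rw [Matrix.smul_apply, smul_eq_mul, Equiv.Perm.permMatrix, PEquiv.toMatrix_apply,
        Equiv.toPEquiv_apply]
      simp only [Option.mem_def, Option.some.injEq]
    calc ∑ i, ∑ j, (∑ σ, w σ • σ.permMatrix ℝ) i j * d i j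
        = ∑ i, ∑ j, ∑ σ, w σ * (if σ i = j then 1 else 0) * d i j := by
          refine Finset.sum_congr rfl fun i _ => Finset.sum_congr rfl fun j _ => ?_
          rw [e1, Finset.sum_mul]
      _ = ∑ i, ∑ σ, w σ * d i (σ i) := by
          refine Finset.sum_congr rfl fun i _ => ?_
          rw [Finset.sum_comm]
          refine Finset.sum_congr rfl fun σ _ => ?_
          rw [Finset.sum_eq_single (σ i)]
          · rw [if_pos rfl, mul_one]
          · intro j _ hj
            rw [if_neg (Ne.symm hj), mul_zero, zero_mul]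
          · intro h
            exact absurd (Finset.mem_univ _) h
      _ = ∑ σ, w σ * ∑ i, d i (σ i) := by
          rw [Finset.sum_comm]
          exact Finset.sum_congr rfl fun σ _ => by rw [Finset.mul_sum]
  have h2 : ∑ σ, w σ * ∑ i, d i (σ i) ≤ ∑ i, d i i := by
    calc ∑ σ, w σ * ∑ i, d i (σ i) ≤ ∑ σ, w σ * ∑ i, d i i :=
          Finset.sum_le_sum fun σ _ => mul_le_mul_of_nonneg_left (hd σ) (hw0 σ)
      _ = ∑ i, d i i := by rw [← Finset.sum_mul, hw1, one_mul]
  have h3 : ∑ i, ∑ j, M i j * d i j =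
      ∑ p : Fin n × Fin n, g p * d p.1 p.2 + ∑ i, (1 - l i) * d i i := by
    rw [Fintype.sum_prod_type, ← Finset.sum_add_distrib]
    refine Finset.sum_congr rfl fun i _ => ?_
    have e1 : ∀ j, M i j * d i j = g (i, j) * d i j + if i = j then (1 - l i) * d i j else 0 := by
      intro j
      show (g (i, j) + if i = j then 1 - l i else 0) * d i j = _
      split_ifs <;> ring
    rw [Finset.sum_congr rfl fun j _ => e1 j, Finset.sum_add_distrib,
      Finset.sum_ite_eq Finset.univ i, if_pos (Finset.mem_univ _)]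
  have h4 : ∑ i, (1 - l i) * d i i = ∑ i, d i i - ∑ i, l i * d i i := by
    rw [← Finset.sum_sub_distrib]
    exact Finset.sum_congr rfl fun i _ => by ring
  linarith

/-- If the angle at `o` is not acute, then `|r - o| + |b - o| ≤ √2 |r - b|`. -/
theorem sqrt_two_of_inner_nonpos (r b o : E) (h : ⟪r - o, b - o⟫ ≤ 0) :
    ‖r - o‖ + ‖b - o‖ ≤ Real.sqrt 2 * ‖r - b‖ := by
  have h1 : ‖r - b‖ ^ 2 = ‖r - o‖ ^ 2 - 2 * ⟪r - o, b - o⟫ + ‖b - o‖ ^ 2 := by
    have : r - b = (r - o) - (b - o) := by abel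
    rw [this, norm_sub_sq_real]
  have h2 : (‖r - o‖ + ‖b - o‖) ^ 2 ≤ (Real.sqrt 2 * ‖r - b‖) ^ 2 := by
    rw [mul_pow, Real.sq_sqrt (by norm_num : (0 : ℝ) ≤ 2), h1]
    nlinarith [sq_nonneg (‖r - o‖ - ‖b - o‖)]
  exact le_of_sq_le_sq h2 (by positivity)

/-- **The colorful Fingerhut problem in Hilbert space.** Let `E` be a real inner product space (for
example `ℓ₂`, or a Euclidean space), and let `n ≥ 1` red points `r i` and `n` blue points `b i` be
matched by a max-sum matching: `∑ |r i - b (σ i)| ≤ ∑ |r i - b i|` for all permutations `σ`. Then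
there is a point `o` with `|r i - o| + |b i - o| ≤ √2 |r i - b i|` for all `i`. -/
theorem result (E : Type*) [NormedAddCommGroup E] [InnerProductSpace ℝ E] (n : ℕ) (hn : 1 ≤ n)
    (r b : Fin n → E)
    (hmax : ∀ σ : Equiv.Perm (Fin n), ∑ i, ‖r i - b (σ i)‖ ≤ ∑ i, ‖r i - b i‖) :
    ∃ o : E, ∀ i, ‖r i - o‖ + ‖b i - o‖ ≤ Real.sqrt 2 * ‖r i - b i‖ := by
  classical
  set K : Set E := convexHull ℝ (Set.range r ∪ Set.range b) with hKdef
  have hK : IsCompact K :=
    ((Set.finite_range r).union (Set.finite_range b)).isCompact_convexHull ℝ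
  have hKc : Convex ℝ K := convex_convexHull ℝ _
  have hr : ∀ i, r i ∈ K := fun i => subset_convexHull ℝ _ (Or.inl ⟨i, rfl⟩)
  have hb : ∀ i, b i ∈ K := fun i => subset_convexHull ℝ _ (Or.inr ⟨i, rfl⟩)
  have hne : K.Nonempty := ⟨r ⟨0, by omega⟩, hr _⟩
  obtain ⟨o, -, ho⟩ := minimax hK hKc hne
    (fun i o => ‖r i - o‖ + ‖b i - o‖ - Real.sqrt 2 * ‖r i - b i‖)
    (fun i => by fun_prop) (fun i => convexOn_h K hKc _ _ _) (by
      intro l hl hl1
      obtain ⟨g, ⟨hg0, hg1, hg2⟩, hmin⟩ := exists_coupling l hl hl1 fun p => ⟪r p.1, b p.2⟫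
      obtain ⟨o, hoK, ho⟩ := ball r b hK hKc hne hr hb l g hg0 hg1 hg2 hmin
      refine ⟨o, hoK, ?_⟩
      have h1 : ∑ i, l i * (‖r i - o‖ + ‖b i - o‖) =
          ∑ p : Fin n × Fin n, g p * (‖r p.1 - o‖ + ‖b p.2 - o‖) := by
        have e1 : ∑ i, l i * ‖r i - o‖ = ∑ p : Fin n × Fin n, g p * ‖r p.1 - o‖ := by
          rw [Fintype.sum_prod_type]
          refine Finset.sum_congr rfl fun i _ => ?_
          rw [← hg1 i, Finset.sum_mul]
        have e2 : ∑ i, l i * ‖b i - o‖ = ∑ p : Fin n × Fin n, g p * ‖b p.2 - o‖ := by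
          rw [Fintype.sum_prod_type_right]
          refine Finset.sum_congr rfl fun i _ => ?_
          rw [← hg2 i, Finset.sum_mul]
        rw [Finset.sum_congr rfl fun i _ => mul_add _ _ _, Finset.sum_add_distrib, e1, e2,
          ← Finset.sum_add_distrib]
        exact Finset.sum_congr rfl fun p _ => (mul_add _ _ _).symm
      have h2 : ∑ p : Fin n × Fin n, g p * (‖r p.1 - o‖ + ‖b p.2 - o‖) ≤
          Real.sqrt 2 * ∑ p : Fin n × Fin n, g p * ‖r p.1 - b p.2‖ := by
        rw [Finset.mul_sum]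
        refine Finset.sum_le_sum fun p _ => ?_
        rcases (hg0 p).lt_or_eq with hp | hp
        · have := mul_le_mul_of_nonneg_left (sqrt_two_of_inner_nonpos _ _ _ (ho p hp)) (hg0 p)
          linarith
        · rw [← hp, zero_mul, zero_mul, mul_zero]
      have h3 := coupling_le (fun i j => ‖r i - b j‖) hmax l hl hl1 g hg0 hg1 hg2
      have h4 : ∑ i, l i * (‖r i - o‖ + ‖b i - o‖ - Real.sqrt 2 * ‖r i - b i‖) =
          ∑ i, l i * (‖r i - o‖ + ‖b i - o‖) - Real.sqrt 2 * ∑ i, l i * ‖r i - b i‖ := by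
        rw [Finset.mul_sum, ← Finset.sum_sub_distrib]
        exact Finset.sum_congr rfl fun i _ => by ring
      have h5 := mul_le_mul_of_nonneg_left h3 (Real.sqrt_nonneg 2)
      rw [h4, h1]
      linarith)
  exact ⟨o, fun i => by linarith [ho i]⟩

end Pool.Agent.Results.MP_be7f3b_co.FingerhutHilbert
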